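import Pool.Agent.IDP.All

/-!
# The determinant pairing of Leavitt path algebras is intrinsic

`G`, `H` are finite graphs without sinks and `L` is a `k`-algebra isomorphic to `L_k(G)` (by `α`)
and to `L_k(H)` (by `β`). A lattice in a left module is a finite-dimensional subspace stable
under the ghost edges which absorbs every vector under long ghost words; a lattice in a right module
is the same for the edges.

* `LatL`, `LatR`: a left or right module over `L` has a lattice for `G` if and only if it has
  one for `H`.
* `Pairing`: if every cycle of `H` has an exit then for a left module and a right module over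
  `L` the determinant `det (1 - Σ_e W_e ⊗ X_e)` formed with lattices `W`, `X` is the same
  for all lattices for `G` and for `H`.
* Hence if the trivial left modules of `G` and `H` (locally constant functions on the space of
  infinite paths) are isomorphic over `L`, and the trivial right modules too, then
  `det (1 - A_G) = det (1 - A_H)` in `k`.
* Hence if `2 det (1 - A_G) ≠ 0` in `k` then no isomorphism of the Leavitt path algebras of `G` and
  of its Cuntz splice at `v` matches the trivial modules.
-/

universe u

open CKS Pool.Agent.IDP in
theorem Pool.Agent.Results.MP_c09b05_al.DeterminantPairing.result (k : Type u) [Field k] :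
    (∀ {V E V' E' : Type} [Fintype V] [DecidableEq V] [Fintype E] [Fintype V'] [DecidableEq V']
      [Fintype E'] (G : CKS.Graph V E) (H : CKS.Graph V' E') (_ : NoSink G) (_ : NoSink H)
      (L : Type u) [Ring L] [Algebra k L] (α : LPA k G ≃ₐ[k] L) (β : LPA k H ≃ₐ[k] L),
      LatL α β ∧ LatR α β ∧ (Exits H → Pairing α β) ∧
      (Exits H → Match α β → Matrix.det (1 - adj k G) = Matrix.det (1 - adj k H))) ∧
    (∀ {V E : Type} [Fintype V] [DecidableEq V] [Fintype E] (G : CKS.Graph V E) (_ : NoSink G)
      (_ : Exits G) (v : V) (L : Type u) [Ring L] [Algebra k L] (α : LPA k (splice G v) ≃ₐ[k] L)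
      (β : LPA k G ≃ₐ[k] L), Match α β → 2 * Matrix.det (1 - adj k G) = 0) :=
  Pool.Agent.IDP.final2 all_LL all_MAIN p_TRIV p_PATHS k
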