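import Pool.Agent.SKG.ML

set_option autoImplicit false

/-!
# The Cuntz splice is invisible after adjoining freely one unit

Let `G` be a finite graph with a vertex `u` with two loops `a₀`, `a₁`. The Cuntz splice of `G` at
`u`, and the graph `srcs G u a₀ a₁` which arises from `G` by adding two vertices without edges from
`G` (so that its Leavitt path algebra is Morita equivalent to that of `G`), have isomorphic Leavitt
path algebras after adjoining freely a unit of the corner of the last vertex.
-/

universe u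

open Pool.Agent

theorem Pool.Agent.Results.MP_c09b05_al.SpliceFreeUnit.result (k : Type u) [Field k]
    {V E : Type} [Fintype V] [DecidableEq V] [Fintype E] [DecidableEq E] (G : CKS.Graph V E)
    (v : V) (a₀ a₁ : E) (hne : a₀ ≠ a₁) (hs₀ : G.s a₀ = v) (hr₀ : G.r a₀ = v) (hs₁ : G.s a₁ = v)
    (hr₁ : G.r a₁ = v) :
    ∃ Φ : SKG.LU k (CKS.splice G v) (.inr 1) ≃ₐ[k] SKG.LU k (SKG.srcs G v a₀ a₁) (.inr 1),
      ∀ w, Φ (SKG.vtx w) = SKG.vtx w :=
  SKG.iso k ⟨hne, hs₀, hr₀, hs₁, hr₁⟩
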