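import Pool.Agent.CKS.All

/-!
# The algebraic Kirchberg-Phillips question is equivalent to the isomorphism of `L_2` and `L_{2-}`

For every field `k` the following are equivalent:
* `L_2` and `L_{2-}` are isomorphic `k`-algebras;
* for every finite SPI graph `E` the Leavitt path algebra of `E` is Morita equivalent to that of a
  Cuntz splice of `E` (the condition equivalent to Q1);
* the same for every finite graph `E` and every vertex `v` that emits two different edges from whose
  ranges one can return to `v`.

The main point is that every isomorphism of `L_2` with `L_{2-}` lifts to the relative Cohn algebras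
(`CKS.all_tiso`), no condition on the isomorphism being needed.
-/

universe u

theorem Pool.Agent.Results.MP_c09b05_al.SpliceReduction.result (k : Type u) [Field k] :
    List.TFAE [
      Nonempty (CKS.LPA k CKS.G2 ≃ₐ[k] CKS.LPA k (CKS.splice CKS.G2 0)),
      ∀ (V E : Type) [Finite V] [Finite E] (G : CKS.Graph V E), CKS.IsSPI G →
        ∃ v, IsMoritaEquivalent k (CKS.LPA k G) (CKS.LPA k (CKS.splice G v)),
      ∀ (V E : Type) [Finite V] [Finite E] (G : CKS.Graph V E) (v : V), CKS.TwoRet G v →
        IsMoritaEquivalent k (CKS.LPA k G) (CKS.LPA k (CKS.splice G v))] :=
  CKS.all_main k
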